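import Pool.Agent.Lib_MP_852c2d_lc.Main

set_option autoImplicit false

/-!
# Sorting `X + Y` by monotone circuits needs `n ^ 2 log n` minimum and maximum gates

A circuit has the inputs `x 0, ..., x (n-1), y 0, ..., y (n-1)`, real constants, and gates for
addition, multiplication by a constant `c ≥ 0`, minimum and maximum, each readable arbitrarily
often. A family `C` of `m` circuits is given such that on every pair of increasing integer
sequences with distinct sums at least one member of the family outputs all `n ^ 2` sums in sorted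
order (`m = 1`: one data-oblivious program; `m = 2 ^ b`: a program that may branch, in any way and
free of charge, into at most `2 ^ b` such straight-line programs).
-/

namespace Pool.Agent.Results.MP_852c2d_lc.MonotoneCircuits

open Pool.Agent.Lib_MP_852c2d_lc

/-- If every circuit of a family of `m` circuits that sorts `X + Y` has at most `M` minimum and
maximum gates, then `2 (n - T) (⌊n/2⌋ log₂ T - log₂ m) ≤ M` for all `1 ≤ T ≤ n`; in particular
`M ≥ (1 - ε) n ^ 2 log₂ n - 2 n log₂ m` for all `n ≥ N(ε)`. -/
theorem result :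
    (∀ n T m : ℕ, 1 ≤ T → T ≤ n → ∀ C : Fin m → Circuit n, SortsIntegers C →
      ∀ M : ℕ, (∀ a, (C a).minMax ≤ M) →
        2 * ((n : ℝ) - T) * (((n / 2 : ℕ) : ℝ) * Real.logb 2 T - Real.logb 2 m) ≤ M) ∧
    (∀ ε : ℝ, 0 < ε → ∃ N : ℕ, ∀ n ≥ N, ∀ (m : ℕ) (C : Fin m → Circuit n), SortsIntegers C →
      ∀ M : ℕ, (∀ a, (C a).minMax ≤ M) →
        (1 - ε) * (n : ℝ) ^ 2 * Real.logb 2 n - 2 * n * Real.logb 2 m ≤ M) :=
  ⟨fun n T m hT1 hTn C hC M hM => main n T m hT1 hTn C hC M hM, asym⟩

end Pool.Agent.Results.MP_852c2d_lc.MonotoneCircuits
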