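import Pool.Agent.Lib_MP_852c2d_ts.AssA
import Pool.Agent.Lib_MP_852c2d_ts.AssB

set_option autoImplicit false

/-!
# Time-space trade-offs for sorting `X + Y`

Inputs are presorted integer vectors `x`, `y` with entries below `200 n ^ 3` and distinct sums
(`Good`).

(A) `Machine`: at most `2 ^ S` states; every step reads at most `k` of the `2 n` inputs completely
and outputs any set of triples `(r, i, j)`, read as: `x_i + y_j` has rank `r`; the triples may be output in
any order.

(B) `Printer`: at most `2 ^ S` states; every step asks one yes-no question of any kind about the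
whole input and prints a list of pairs; the pairs have to be printed in increasing order of the
sums.

In both models everything may depend on the time, so the models are nonuniform. The lower bounds
hold already for machines that are correct on 99 percent of the inputs in a finite set.
-/

namespace Pool.Agent.Results.MP_852c2d_lc.TimeSpace

open Pool.Agent.Lib_MP_852c2d_ts

open Classical in
/-- There is `c > 0` such that for every `n ≥ 2`: (A) if `k, S ≤ c n`, then `T k S ≥ c n ^ 3`;
(B) if `S ≤ c n log₂ n`, then `T ≥ c n ^ 2 log₂ n`. -/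
theorem result : ∃ c : ℝ, 0 < c ∧ ∀ n : ℕ, 2 ≤ n →
    (∃ H : Finset (Inp n), H.Nonempty ∧ (∀ z ∈ H, Good z) ∧
      ∀ (k S T : ℕ) (V : Type) [Fintype V] (M : Machine n k V), 1 ≤ k →
        Fintype.card V ≤ 2 ^ S → n ≤ 2 ^ S → (k : ℝ) ≤ c * n → (S : ℝ) ≤ c * n →
        99 * H.card ≤ 100 * (H.filter fun z => M.Sorts T z).card →
        c * n ^ 3 ≤ T * k * S) ∧
    (∃ H : Finset (Inp n), H.Nonempty ∧ (∀ z ∈ H, Good z) ∧
      ∀ (S T : ℕ) (V : Type) [Fintype V] (P : Printer n V),
        Fintype.card V ≤ 2 ^ S → (S : ℝ) ≤ c * n * Real.logb 2 n →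
        99 * H.card ≤ 100 * (H.filter fun z => P.Sorts T z).card →
        c * n ^ 2 * Real.logb 2 n ≤ T) := by
  obtain ⟨a, ha, hA⟩ := partA
  obtain ⟨b, hb, hB⟩ := partB
  have hc : 0 < min a b := lt_min ha hb
  refine ⟨min a b, hc, fun n hn => ⟨?_, ?_⟩⟩
  · obtain ⟨H, h1, h2, h3⟩ := hA n hn
    refine ⟨H, h1, h2, fun k S T V _ M hk hV hn2 hkn hSn hok => ?_⟩
    have hle : min a b * (n : ℝ) ≤ a * n :=
      mul_le_mul_of_nonneg_right (min_le_left _ _) (Nat.cast_nonneg n)
    have h4 := h3 k S T V M hk hV hn2 (hkn.trans hle) (hSn.trans hle) hok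
    exact (mul_le_mul_of_nonneg_right (min_le_left _ _) (by positivity)).trans h4
  · obtain ⟨H, h1, h2, h3⟩ := hB n hn
    refine ⟨H, h1, h2, fun S T V _ P hV hSn hok => ?_⟩
    have hlog : 0 ≤ Real.logb 2 n := Real.logb_nonneg (by norm_num) (by exact_mod_cast (by omega : 1 ≤ n))
    have hle : min a b * (n : ℝ) * Real.logb 2 n ≤ b * n * Real.logb 2 n := by
      have := min_le_right a b
      gcongr
    have h4 := h3 S T V P hV (hSn.trans hle) hok
    refine le_trans ?_ h4
    have := min_le_right a b
    gcongr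

end Pool.Agent.Results.MP_852c2d_lc.TimeSpace
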